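import Pool.Agent.W23.UL.Defs

/-! UL-TUPR: the telescoping step. -/

set_option autoImplicit false

namespace Pool.Agent.W108.UL

open Finset Polynomial
open Pool.Agent.H373R2.T7
open Pool.Agent.W23.UL

theorem rgh_dvd (z n : ℕ) (hn : n ≠ 0) : rgh z n ∣ n := by
  unfold rgh
  have h : (n.primeFactorsList.filter (fun p => z < p)).prod ∣ n.primeFactorsList.prod :=
    List.Sublist.prod_dvd_prod List.filter_sublist
  rwa [Nat.prod_primeFactorsList hn] at h

theorem qI_nonneg (z : ℕ) (k : ℤ) : 0 ≤ qI z k := by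
  unfold qI
  split_ifs
  · exact ArithmeticFunction.vonMangoldt_nonneg
  · exact le_rfl

theorem qI_le (z : ℕ) (k : ℤ) (X : ℝ) (hX : 1 ≤ X) (h : (k : ℝ) ≤ X) : qI z k ≤ Real.log X := by
  unfold qI
  split_ifs with h1
  · have hk : k.toNat ≠ 0 := by omega
    have hd := rgh_dvd z k.toNat hk
    have hle := Nat.le_of_dvd (Nat.pos_of_ne_zero hk) hd
    have hpos := Nat.pos_of_dvd_of_pos hd (Nat.pos_of_ne_zero hk)
    refine ArithmeticFunction.vonMangoldt_le_log.trans ?_
    have h2 : ((k.toNat : ℕ) : ℝ) = k := by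
      have := Int.toNat_of_nonneg (show 0 ≤ k by omega)
      exact_mod_cast this
    apply Real.log_le_log (by exact_mod_cast hpos)
    have h3 : ((rgh z k.toNat : ℕ) : ℝ) ≤ (k.toNat : ℝ) := by exact_mod_cast hle
    rw [h2] at h3
    exact h3.trans h
  · exact Real.log_nonneg hX

theorem rI_nonneg (z : ℕ) (k : ℤ) : 0 ≤ rI z k := by
  have h := (inv_pos.2 (Vz_pos z)).le
  unfold rI
  split_ifs
  · exact h
  · exact le_rfl

theorem rI_le (z : ℕ) (k : ℤ) : rI z k ≤ (Vz z)⁻¹ := by
  have h := (inv_pos.2 (Vz_pos z)).le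
  unfold rI
  split_ifs
  · exact le_rfl
  · exact h

theorem TUPR (hBILR : St_BILR) : St_TUPR := by
  classical
  intro k f hd hl B hB U
  have hbl := fun i => hBILR (f i) (hd i) (hl i) B hB (U + k + 2)
  choose B0 hB0 using hbl
  refine ⟨univ.sup B0, fun E => ?_⟩
  have hE := fun i => hB0 i E
  choose N0 hN0 using hE
  set c1 : ℕ := 1 + univ.sup (fun i => cf (f i)) * B with hc1
  obtain ⟨n2, h2⟩ := ev_L' (max (Real.log c1 + 1) ((k : ℝ) * 2 ^ k + 1))
  obtain ⟨n3, h3⟩ := Vz_inv_small E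
  refine ⟨max (max (univ.sup N0) n2) (max n3 3), fun N hN x hx z hz1 hz2 g hg => ?_⟩
  have b1 := le_trans (le_trans (le_max_left _ _) (le_max_left _ _)) hN
  have b2 := le_trans (le_trans (le_max_right _ _) (le_max_left _ _)) hN
  have b3 := le_trans (le_trans (le_max_left _ _) (le_max_right _ _)) hN
  have hN3 : 3 ≤ N := le_trans (le_trans (le_max_right _ _) (le_max_right _ _)) hN
  have hNr : (3 : ℝ) ≤ N := by exact_mod_cast hN3
  have hN0' : (0 : ℝ) < N := by linarith
  have hL := h2 N b2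
  set L := Real.log N with hLd
  have hLa : Real.log c1 + 1 ≤ L := (le_max_left _ _).trans hL
  have hLb : (k : ℝ) * 2 ^ k + 1 ≤ L := (le_max_right _ _).trans hL
  have hc1r : (1 : ℝ) ≤ c1 := by
    rw [hc1]
    push_cast
    nlinarith [Nat.cast_nonneg (α := ℝ) (univ.sup (fun i => cf (f i))), Nat.cast_nonneg (α := ℝ) B]
  have hlc1 : 0 ≤ Real.log c1 := Real.log_nonneg hc1r
  have hL1 : 1 ≤ L := by linarith
  have hL0 : 0 < L := by linarith
  have hz : 1 ≤ z := by
    have : (1 : ℝ) ≤ z := (one_le_pow₀ hL1).trans hz1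
    exact_mod_cast this
  have hV := h3 N b3 z hz hz2
  have hx1 : ∀ i, 1 ≤ x i := by
    intro i
    rcases Nat.eq_zero_or_pos (x i) with h | h
    · have := (hx i).1
      have h4 : (f i).natDegree ≠ 0 := by have := hd i; omega
      rw [h, zero_pow h4, mul_zero] at this
      omega
    · exact h
  have hup : ∀ i, ∀ n ∈ Icc 1 N, ∀ v ∈ Icc 1 (x i),
      (((n : ℤ) + (f i).eval (v : ℤ) : ℤ) : ℝ) ≤ c1 * N := by
    intro i n hn v hv
    rw [mem_Icc] at hn hv
    have h4 := (abs_le.1 (abs_eval_le (f i) v hv.1)).2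
    have h5 : cf (f i) * v ^ (f i).natDegree ≤ univ.sup (fun i => cf (f i)) * (B * N) := by
      apply Nat.mul_le_mul (le_sup (f := fun i => cf (f i)) (mem_univ i))
      exact (Nat.pow_le_pow_left hv.2 _).trans (hx i).2
    have h6 : ((n : ℤ) + (f i).eval (v : ℤ)) ≤ ((c1 * N : ℕ) : ℤ) := by
      have h7 : ((cf (f i) * v ^ (f i).natDegree : ℕ) : ℤ) ≤
        ((univ.sup (fun i => cf (f i)) * (B * N) : ℕ) : ℤ) := by exact_mod_cast h5
      have h8 : (n : ℤ) ≤ N := by exact_mod_cast hn.2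
      have h9 : ((c1 * N : ℕ) : ℤ) = N + ((univ.sup (fun i => cf (f i)) * (B * N) : ℕ) : ℤ) := by
        rw [hc1]; push_cast; ring
      rw [h9]
      have h10 : ((cf (f i) * v ^ (f i).natDegree : ℕ) : ℤ) =
        (cf (f i) : ℤ) * (v : ℤ) ^ (f i).natDegree := by push_cast; ring
      rw [h10] at h7
      linarith
    have h7 : (((n : ℤ) + (f i).eval (v : ℤ) : ℤ) : ℝ) ≤ (((c1 * N : ℕ) : ℤ) : ℝ) := by
      exact_mod_cast h6
    push_cast at h7 ⊢
    exact h7
  have hlog2 : Real.log (c1 * N) ≤ 2 * L := by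
    rw [Real.log_mul (by linarith) hN0'.ne']; linarith
  have key := tele N x hx1 (fun i n v => qI z ((n : ℤ) + (f i).eval (v : ℤ)))
    (fun i n v => rI z ((n : ℤ) + (f i).eval (v : ℤ)))
    (2 * L) (N / L ^ (U + k + 2)) (by linarith) (by positivity) (by
      intro i n hn v hv
      rw [abs_of_nonneg (qI_nonneg _ _)]
      refine (qI_le _ _ (c1 * N) ?_ (hup i n hn v hv)).trans hlog2
      nlinarith) (by
      intro i n hn v hv
      rw [abs_of_nonneg (rI_nonneg _ _)]
      have := rI_le z ((n : ℤ) + (f i).eval (v : ℤ))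
      linarith) (by
      intro i K hK G hG
      have h4 := hN0 i N ((le_sup (f := N0) (mem_univ i)).trans b1) (x i) (hx i).1 (hx i).2 N
        (Nat.le_mul_of_pos_left _ (by omega)) z
        (le_trans (pow_le_pow_right₀ hL1 (le_sup (f := B0) (mem_univ i))) hz1) hz2 1 (Or.inl rfl)
      have h5 := l1_of_bil N (x i)
        (fun n v => qI z ((n : ℤ) + (f i).eval (v : ℤ)) - rI z ((n : ℤ) + (f i).eval (v : ℤ)))
        (N * x i / L ^ (U + k + 2)) K hK (by
          intro G c hG hc
          have h6 := h4 G c hG hc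
          simp only [one_mul] at h6
          exact h6) G hG
      refine h5.trans (le_of_eq ?_)
      ring)
    univ L hL0 (fun n _ => g n) (by
      intro n hn m _
      exact (hg n).trans hL1) (by
      intro n m v i _; rfl)
  refine key.trans ?_
  rw [card_univ, Fintype.card_fin]
  have hprod : 0 ≤ ∏ i, (x i : ℝ) := prod_nonneg fun _ _ => Nat.cast_nonneg _
  calc (k : ℝ) * (L * (2 * L) ^ k * (N / L ^ (U + k + 2))) * ∏ i, (x i : ℝ)
      = ((k : ℝ) * 2 ^ k / L) * (N * (∏ i, (x i : ℝ)) / L ^ U) := by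
        rw [mul_pow, show U + k + 2 = U + k + 1 + 1 by ring, pow_succ, pow_succ, pow_add]
        field_simp
    _ ≤ 1 * (N * (∏ i, (x i : ℝ)) / L ^ U) := by
        apply mul_le_mul_of_nonneg_right _ (by positivity)
        rw [div_le_one hL0]; linarith
    _ = _ := one_mul _

end Pool.Agent.W108.UL
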